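import Pool.Agent.Helper73.Star.F2

/-!
# Non-splitting geometries with falling factorial characteristic polynomial (MP_dc96bc_co)

The characteristic polynomial is defined by the Möbius function of the lattice of flats.
-/

set_option autoImplicit false

universe u v

namespace Pool.Agent.Results.MP_dc96bc_co.NonSplittingComplete

open Polynomial

/-- `M` is simple: it has no loops and no parallel elements. -/
def IsSimple {α : Type u} (M : Matroid α) : Prop :=
  (∀ a ∈ M.E, M.Indep {a}) ∧ ∀ a ∈ M.E, ∀ b ∈ M.E, a ≠ b → M.Indep {a, b}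

/-- `M` splits: its ground set is the union of two flats which are proper subsets of it. -/
def Splits {α : Type u} (M : Matroid α) : Prop :=
  ∃ F₁ F₂ : Set α, M.IsFlat F₁ ∧ M.IsFlat F₂ ∧ F₁ ≠ M.E ∧ F₂ ≠ M.E ∧ F₁ ∪ F₂ = M.E

/-- The lattice `L(M)` of flats of `M`, ordered by inclusion. -/
abbrev Flats {α : Type u} (M : Matroid α) : Type u := {F : Set α // M.IsFlat F}

/-- The smallest flat of `M`. -/
def bot {α : Type u} (M : Matroid α) : Flats M := ⟨M.closure ∅, M.isFlat_closure ∅⟩

theorem finite_flats {α : Type u} (M : Matroid α) [M.Finite] : Finite (Flats M) :=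
  Set.Finite.subset M.ground_finite.finite_subsets fun _ hF => hF.subset_ground

open Classical in
/-- The characteristic polynomial `∑ μ(0, F) λ ^ (r(M) - r(F))`, the sum over the flats `F` of `M`,
`μ` the Möbius function of the lattice of flats, `r` the rank. -/
noncomputable def charPoly {α : Type u} (M : Matroid α) [M.Finite] : ℤ[X] :=
  haveI : Finite (Flats M) := finite_flats M
  letI : LocallyFiniteOrder (Flats M) := LocallyFiniteOrder.ofFiniteIcc fun _ _ => Set.toFinite _
  ∑ᶠ F : Flats M, C (IncidenceAlgebra.mu ℤ (bot M) F) *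
    X ^ ((M.eRk M.E).toNat - (M.eRk F.1).toNat)

/-- `M` is isomorphic to the cycle matroid of the graph `G`: there is a bijection of the ground
set of `M` to the edge set of `G` such that a set is independent if and only if the corresponding
set of edges contains no cycle. -/
def IsoCycleMatroid {α : Type u} {V : Type v} (M : Matroid α) (G : SimpleGraph V) : Prop :=
  ∃ e : M.E ≃ G.edgeSet, ∀ I : Set M.E, M.Indep (Subtype.val '' I) ↔
    (SimpleGraph.fromEdgeSet (Subtype.val '' (e '' I))).IsAcyclic

/-! ### The characteristic polynomial as a sum over all subsets -/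

private theorem mu_unique {P : Type u} [PartialOrder P] [LocallyFiniteOrder P] [DecidableEq P]
    (a : P) (g : P → ℤ)
    (h : ∀ b, a ≤ b → ∑ x ∈ Finset.Icc a b, g x = if a = b then 1 else 0) (b : P) (hb : a ≤ b) :
    g b = IncidenceAlgebra.mu ℤ a b := by
  induction hc : (Finset.Icc a b).card using Nat.strong_induction_on generalizing b with
  | _ m ih =>
    by_cases hab : a = b
    · subst hab
      have h1 := h a le_rfl
      rw [Finset.Icc_self, Finset.sum_singleton, if_pos rfl] at h1
      rw [h1, IncidenceAlgebra.mu_self]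
    · have h1 := h b hb
      rw [if_neg hab, ← Finset.Ico_insert_right hb,
        Finset.sum_insert Finset.right_notMem_Ico] at h1
      rw [IncidenceAlgebra.mu_eq_neg_sum_Ico_of_ne hab]
      have h2 : ∑ x ∈ Finset.Ico a b, g x =
          ∑ x ∈ Finset.Ico a b, IncidenceAlgebra.mu ℤ a x := by
        refine Finset.sum_congr rfl fun x hx => ?_
        rw [Finset.mem_Ico] at hx
        refine ih (Finset.Icc a x).card ?_ x hx.1 rfl
        rw [← hc]
        exact Finset.card_lt_card (Finset.Icc_ssubset_Icc_right hb le_rfl hx.2)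
      rw [← h2]
      linear_combination h1

private theorem closure_empty {α : Type u} {M : Matroid α} (hM : IsSimple M) :
    M.closure ∅ = ∅ := by
  rw [Set.eq_empty_iff_forall_notMem]
  intro x hx
  have hxE : x ∈ M.E := M.closure_subset_ground _ hx
  have h1 := (hM.1 x hxE).notMem_closure_sdiff_of_mem (Set.mem_singleton x)
  rw [Set.sdiff_self] at h1
  exact h1 hx

open Classical in
private theorem charPoly_eq {α : Type u} (M : Matroid α) [M.Finite] (hM : IsSimple M)
    (E : Finset α) (hE : (E : Set α) = M.E) :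
    charPoly M = ∑ S ∈ E.powerset, (-1 : ℤ[X]) ^ S.card *
      X ^ ((M.eRk (E : Set α)).toNat - (M.eRk (S : Set α)).toNat) := by
  have : Finite (Flats M) := finite_flats M
  let _ : LocallyFiniteOrder (Flats M) := LocallyFiniteOrder.ofFiniteIcc fun _ _ => Set.toFinite _
  let _ : Fintype (Flats M) := Fintype.ofFinite _
  have hcl0 := closure_empty hM
  let π : Finset α → Flats M := fun S => ⟨M.closure (S : Set α), M.isFlat_closure _⟩
  have hbot : ∀ F : Flats M, bot M ≤ F := by
    intro F
    change M.closure ∅ ⊆ F.1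
    rw [hcl0]
    exact Set.empty_subset _
  let g : Flats M → ℤ := fun F => ∑ S ∈ E.powerset.filter (fun S => π S = F), (-1 : ℤ) ^ S.card
  have hg : ∀ F, g F = IncidenceAlgebra.mu ℤ (bot M) F := by
    intro F
    refine mu_unique (bot M) g ?_ F (hbot F)
    intro F _
    have hsub : ∀ S ∈ E.powerset, (S : Set α) ⊆ M.closure (S : Set α) := by
      intro S hS
      refine M.subset_closure _ ?_
      rw [← hE]
      exact_mod_cast Finset.mem_powerset.1 hS
    have h1 : ∀ G ∈ Finset.Icc (bot M) F, g G =
        ∑ S ∈ (E.powerset.filter (fun S : Finset α => (S : Set α) ⊆ F.1)).filter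
          (fun S => π S = G),
          (-1 : ℤ) ^ S.card := by
      intro G hG
      rw [Finset.mem_Icc] at hG
      refine Finset.sum_congr ?_ fun _ _ => rfl
      ext S
      simp only [Finset.mem_filter]
      constructor
      · rintro ⟨hS, hSG⟩
        refine ⟨⟨hS, (hsub S hS).trans ?_⟩, hSG⟩
        have h2 : M.closure (S : Set α) = G.1 := congrArg Subtype.val hSG
        rw [h2]
        exact hG.2
      · rintro ⟨⟨hS, _⟩, hSG⟩
        exact ⟨hS, hSG⟩
    rw [Finset.sum_congr rfl h1, Finset.sum_fiberwise_of_maps_to]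
    · have h2 : E.powerset.filter (fun S : Finset α => (S : Set α) ⊆ F.1) =
          (E.filter (fun x => x ∈ F.1)).powerset := by
        ext S
        simp only [Finset.mem_filter, Finset.mem_powerset]
        constructor
        · rintro ⟨h3, h4⟩ x hx
          exact Finset.mem_filter.2 ⟨h3 hx, h4 (Finset.mem_coe.2 hx)⟩
        · intro h3
          exact ⟨fun x hx => (Finset.mem_filter.1 (h3 hx)).1,
            fun x hx => (Finset.mem_filter.1 (h3 (Finset.mem_coe.1 hx))).2⟩
      rw [h2, Finset.sum_powerset_neg_one_pow_card]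
      have h3 : E.filter (fun x => x ∈ F.1) = ∅ ↔ bot M = F := by
        rw [Finset.filter_eq_empty_iff]
        constructor
        · intro h4
          refine Subtype.ext ?_
          change M.closure ∅ = F.1
          rw [hcl0, eq_comm, Set.eq_empty_iff_forall_notMem]
          intro x hx
          refine h4 ?_ hx
          rw [← Finset.mem_coe, hE]
          exact F.2.subset_ground hx
        · intro h4 x _ hx
          rw [← h4] at hx
          change x ∈ M.closure ∅ at hx
          rw [hcl0] at hx
          exact hx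
      by_cases h4 : bot M = F
      · rw [if_pos h4, if_pos (h3.2 h4)]
      · rw [if_neg h4, if_neg (fun h5 => h4 (h3.1 h5))]
    · intro S hS
      rw [Finset.mem_filter] at hS
      rw [Finset.mem_Icc]
      refine ⟨hbot _, ?_⟩
      change M.closure (S : Set α) ⊆ F.1
      rw [← F.2.closure]
      exact M.closure_subset_closure hS.2
  have hdef : charPoly M = ∑ᶠ F : Flats M, C (IncidenceAlgebra.mu ℤ (bot M) F) *
    X ^ ((M.eRk M.E).toNat - (M.eRk F.1).toNat) := rfl
  rw [hdef, finsum_eq_sum_of_fintype]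
  have h5 : ∀ F : Flats M, C (IncidenceAlgebra.mu ℤ (bot M) F) *
      X ^ ((M.eRk M.E).toNat - (M.eRk F.1).toNat) =
      ∑ S ∈ E.powerset.filter (fun S => π S = F), (-1 : ℤ[X]) ^ S.card *
        X ^ ((M.eRk (E : Set α)).toNat - (M.eRk (S : Set α)).toNat) := by
    intro F
    rw [← hg F]
    change C (∑ S ∈ E.powerset.filter (fun S => π S = F), (-1 : ℤ) ^ S.card) * _ = _
    rw [map_sum, Finset.sum_mul]
    refine Finset.sum_congr rfl fun S hS => ?_
    have h6 : M.closure (S : Set α) = F.1 := congrArg Subtype.val (Finset.mem_filter.1 hS).2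
    rw [← h6, M.eRk_closure_eq, hE]
    simp
  rw [Finset.sum_congr rfl fun F _ => h5 F, Finset.sum_fiberwise]

/-! ### Transport to `Fin N` -/

private theorem isRank_eRk {β : Type} [Fintype β] [DecidableEq β] (N : Matroid β) :
    Pool.Agent.Helper46.FF.IsRank N (fun S => (N.eRk (S : Set β)).toNat) := by
  intro S
  have hfin : N.eRk (S : Set β) ≠ ⊤ :=
    ((N.eRk_le_encard _).trans_lt S.finite_toSet.encard_lt_top).ne
  constructor
  · obtain ⟨I, hIS, hI, hIc⟩ := Matroid.le_eRk_iff.1 (le_refl (N.eRk (S : Set β)))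
    obtain ⟨J, rfl⟩ := (Set.toFinite I).exists_finset_coe
    refine ⟨J, by exact_mod_cast hIS, hI, ?_⟩
    rw [Set.encard_coe_eq_coe_finsetCard] at hIc
    change J.card = (N.eRk (S : Set β)).toNat
    rw [← hIc, ENat.toNat_natCast]
  · rintro k ⟨J, hJS, hJ, rfl⟩
    have h1 := hJ.encard_le_eRk_of_subset (X := (S : Set β)) (by exact_mod_cast hJS)
    rw [Set.encard_coe_eq_coe_finsetCard, ← ENat.natCast_toNat hfin] at h1
    exact_mod_cast h1

private theorem iso_of_sum {α : Type u} (M : Matroid α) [M.Finite] (hM : IsSimple M)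
    (hns : ¬ Splits M) (n : ℕ) (E : Finset α) (hE : (E : Set α) = M.E)
    (hχ : ∑ S ∈ E.powerset, (-1 : ℤ[X]) ^ S.card *
      X ^ ((M.eRk (E : Set α)).toNat - (M.eRk (S : Set α)).toNat) =
        ∏ i ∈ Finset.Icc 1 n, (X - C (i : ℤ))) :
    IsoCycleMatroid M (⊤ : SimpleGraph (Fin (n + 1))) := by
  classical
  let f : Fin E.card → α := fun i => (E.equivFin.symm i : α)
  have hf : Function.Injective f := Subtype.val_injective.comp E.equivFin.symm.injective
  have hfE : ∀ i, f i ∈ M.E := by
    intro i
    rw [← hE]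
    exact (E.equivFin.symm i).2
  have hsurj : ∀ x ∈ M.E, ∃ i, f i = x := by
    intro x hx
    rw [← hE] at hx
    refine ⟨E.equivFin ⟨x, hx⟩, ?_⟩
    change ((E.equivFin.symm (E.equivFin ⟨x, hx⟩) : E) : α) = x
    rw [Equiv.symm_apply_apply]
  obtain ⟨M', hM'⟩ : ∃ M' : Matroid (Fin E.card), M' = M.comap f := ⟨_, rfl⟩
  have hind : ∀ I : Set (Fin E.card), M'.Indep I ↔ M.Indep (f '' I) := by
    intro I
    rw [hM', Matroid.comap_indep_iff]
    exact ⟨fun h => h.1, fun h => ⟨h, hf.injOn⟩⟩
  have hrk : ∀ S : Set (Fin E.card), M'.eRk S = M.eRk (f '' S) := by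
    intro S
    rw [hM', Matroid.eRk_comap]
  have hE' : M'.E = Set.univ := by
    rw [hM', Matroid.comap_ground_eq, Set.eq_univ_iff_forall]
    exact hfE
  have himu : f '' Set.univ = M.E := by
    apply Set.Subset.antisymm
    · rintro _ ⟨i, -, rfl⟩
      exact hfE i
    · intro x hx
      obtain ⟨i, rfl⟩ := hsurj x hx
      exact ⟨i, Set.mem_univ i, rfl⟩
  have hp : ∀ a b : Fin E.card, M'.Indep ({a, b} : Set (Fin E.card)) := by
    intro a b
    rw [hind, Set.image_pair]
    by_cases hab : a = b
    · rw [hab, Set.pair_eq_singleton]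
      exact hM.1 _ (hfE b)
    · exact hM.2 _ (hfE a) _ (hfE b) (fun h => hab (hf h))
  have hrr := isRank_eRk M'
  have hflat : ∀ F : Finset (Fin E.card), (∀ e, e ∉ F →
      (M'.eRk (F : Set (Fin E.card))).toNat <
        (M'.eRk ((insert e F : Finset (Fin E.card)) : Set (Fin E.card))).toNat) →
      M.IsFlat (f '' (F : Set (Fin E.card))) := by
    intro F hF
    have hsub : f '' (F : Set (Fin E.card)) ⊆ M.E := by
      rintro _ ⟨i, -, rfl⟩
      exact hfE i
    rw [Matroid.isFlat_iff_closure_eq]
    refine Set.Subset.antisymm ?_ (M.subset_closure _ hsub)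
    intro x hx
    obtain ⟨i, rfl⟩ := hsurj x (M.closure_subset_ground _ hx)
    by_contra hcon
    have hi : i ∉ F := fun h => hcon ⟨i, h, rfl⟩
    have h1 := hF i hi
    rw [hrk, hrk, Finset.coe_insert, Set.image_insert_eq] at h1
    have h2 : M.eRk (insert (f i) (f '' (F : Set (Fin E.card)))) =
        M.eRk (f '' (F : Set (Fin E.card))) := by
      apply le_antisymm
      · rw [← M.eRk_closure_eq (f '' (F : Set (Fin E.card)))]
        refine M.eRk_mono ?_
        exact Set.insert_subset hx (M.subset_closure _ hsub)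
      · exact M.eRk_mono (Set.subset_insert _ _)
    rw [h2] at h1
    exact lt_irrefl _ h1
  have hne : ∀ F : Finset (Fin E.card), F ≠ Finset.univ →
      f '' (F : Set (Fin E.card)) ≠ M.E := by
    intro F hF h1
    apply hF
    rw [Finset.eq_univ_iff_forall]
    intro i
    have h2 := hfE i
    rw [← h1] at h2
    obtain ⟨j, hj, hji⟩ := h2
    rw [← hf hji]
    exact hj
  have hround : ¬ ∃ F₁ F₂ : Finset (Fin E.card),
      (∀ e, e ∉ F₁ → (fun S : Finset (Fin E.card) => (M'.eRk (S : Set _)).toNat) F₁ <
        (fun S : Finset (Fin E.card) => (M'.eRk (S : Set _)).toNat) (insert e F₁)) ∧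
      (∀ e, e ∉ F₂ → (fun S : Finset (Fin E.card) => (M'.eRk (S : Set _)).toNat) F₂ <
        (fun S : Finset (Fin E.card) => (M'.eRk (S : Set _)).toNat) (insert e F₂)) ∧
      F₁ ≠ Finset.univ ∧ F₂ ≠ Finset.univ ∧ F₁ ∪ F₂ = Finset.univ := by
    rintro ⟨F₁, F₂, h1, h2, h3, h4, h5⟩
    refine hns ⟨f '' F₁, f '' F₂, hflat F₁ h1, hflat F₂ h2, hne F₁ h3, hne F₂ h4, ?_⟩
    rw [← Set.image_union, ← Finset.coe_union, h5, Finset.coe_univ, himu]
  have hchi : Pool.Agent.Helper46.FF.chiPoly
      (fun S : Finset (Fin E.card) => (M'.eRk (S : Set _)).toNat) =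
      Pool.Agent.Helper46.FF.ffp n := by
    unfold Pool.Agent.Helper46.FF.chiPoly Pool.Agent.Helper46.FF.ffp
    rw [← hχ]
    refine Finset.sum_bij (fun S _ => S.map ⟨f, hf⟩) ?_ ?_ ?_ ?_
    · intro S _
      rw [Finset.mem_powerset]
      intro x hx
      rw [Finset.mem_map] at hx
      obtain ⟨i, -, rfl⟩ := hx
      rw [← Finset.mem_coe, hE]
      exact hfE i
    · intro S _ T _ h
      exact Finset.map_injective _ h
    · intro T hT
      refine ⟨Finset.univ.filter (fun i => f i ∈ T), Finset.mem_univ _, ?_⟩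
      ext x
      rw [Finset.mem_map]
      constructor
      · rintro ⟨i, hi, rfl⟩
        exact (Finset.mem_filter.1 hi).2
      · intro hx
        have hxE : x ∈ M.E := by
          rw [← hE]
          exact_mod_cast Finset.mem_powerset.1 hT hx
        obtain ⟨i, rfl⟩ := hsurj x hxE
        exact ⟨i, Finset.mem_filter.2 ⟨Finset.mem_univ _, hx⟩, rfl⟩
    · intro S _
      change (-1 : ℤ[X]) ^ S.card * X ^ ((M'.eRk ((Finset.univ : Finset (Fin E.card)) :
        Set (Fin E.card))).toNat - (M'.eRk (S : Set (Fin E.card))).toNat) = _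
      rw [Finset.card_map, hrk, hrk, Finset.coe_univ, himu, Finset.coe_map, hE]
      rfl
  have hKn : Pool.Agent.Helper46.FF.IsKn M' n := by
    refine Pool.Agent.Helper46.FF.isKn_of_MUI_min n hE' hp hrr hround hchi ?_
    intro S T hST _ hlt hR _
    exact Pool.Agent.Helper73.ST.F2.MUI_all hrr.rankFn hST hlt hR
  obtain ⟨e, he⟩ := hKn
  let ψ : M.E ≃ Fin E.card := (Equiv.setCongr hE.symm).trans E.equivFin
  have hψ : ∀ x : M.E, f (ψ x) = x.1 := by
    intro x
    change ((E.equivFin.symm (E.equivFin _) : E) : α) = _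
    rw [Equiv.symm_apply_apply]
    rfl
  let τ : {s : Sym2 (Fin (n + 1)) // ¬ s.IsDiag} ≃ (⊤ : SimpleGraph (Fin (n + 1))).edgeSet :=
    Equiv.subtypeEquivRight fun s => by
      rw [SimpleGraph.edgeSet_top]
      rfl
  refine ⟨ψ.trans (e.trans τ), fun I => ?_⟩
  have h1 := he (ψ '' I)
  rw [hind] at h1
  have h2 : f '' (ψ '' I) = Subtype.val '' I := by
    rw [Set.image_image]
    exact Set.image_congr fun x _ => hψ x
  have h3 : (Subtype.val '' ((ψ.trans (e.trans τ)) '' I) : Set (Sym2 (Fin (n + 1)))) =
      Subtype.val '' (e '' (ψ '' I)) := by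
    rw [Set.image_image, Set.image_image, Set.image_image]
    exact Set.image_congr fun x _ => rfl
  rw [h3, ← h1, h2]

/-- Every non-splitting geometry with characteristic polynomial `(λ - 1)(λ - 2) ⋯ (λ - n)` is
isomorphic to the cycle matroid of the complete graph on `n + 1` vertices. -/
theorem result {α : Type u} (M : Matroid α) [M.Finite] (hM : IsSimple M) (hns : ¬ Splits M)
    (n : ℕ) (hχ : charPoly M = ∏ i ∈ Finset.Icc 1 n, (X - C (i : ℤ))) :
    IsoCycleMatroid M (⊤ : SimpleGraph (Fin (n + 1))) := by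
  classical
  have hE : (M.ground_finite.toFinset : Set α) = M.E := Set.Finite.coe_toFinset _
  refine iso_of_sum M hM hns n M.ground_finite.toFinset hE ?_
  rw [← hχ, charPoly_eq M hM _ hE]

end Pool.Agent.Results.MP_dc96bc_co.NonSplittingComplete
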