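import Pool.Agent.Helper46.FF.Binary
import Pool.Agent.Helper46.FF.RepMin

set_option autoImplicit false

/-! MP_dc96bc_co: every non-splitting geometry with characteristic polynomial
`(x-1)(x-2)...(x-n)` is `M(K_{n+1})` if it is representable over some field, and more generally if
each of its proper minimally non-splitting minors of rank at least three is representable over some
field. -/

namespace Pool.Agent.Results.MP_dc96bc_co.Representable

open Pool.Agent.Helper46.FF

theorem result :
    ∀ (α : Type) [Fintype α] [DecidableEq α] (M : Matroid α) (n : ℕ) (r : Finset α → ℕ),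
      M.E = Set.univ →
      (∀ a b : α, M.Indep ({a, b} : Set α)) →
      (∀ X : Finset α, IsGreatest
          {k : ℕ | ∃ I : Finset α, I ⊆ X ∧ M.Indep (↑I : Set α) ∧ I.card = k} (r X)) →
      (¬ ∃ F₁ F₂ : Finset α,
          (∀ e, e ∉ F₁ → r F₁ < r (insert e F₁)) ∧
          (∀ e, e ∉ F₂ → r F₂ < r (insert e F₂)) ∧
          F₁ ≠ Finset.univ ∧ F₂ ≠ Finset.univ ∧ F₁ ∪ F₂ = Finset.univ) →
      (∑ X : Finset α, (-1 : Polynomial ℤ) ^ X.card * Polynomial.X ^ (r Finset.univ - r X))
        = ∏ i ∈ Finset.Icc 1 n, (Polynomial.X - Polynomial.C (i : ℤ)) →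
      -- (a) either `M` is representable over some field ...
      ((∃ (K : Type) (_ : Field K) (V : Type) (_ : AddCommGroup V) (_ : Module K V) (v : α → V),
          ∀ I : Finset α, M.Indep (↑I : Set α) ↔ LinearIndepOn K v (↑I : Set α)) ∨
      -- (b) ... or every proper minor `(M | T) / S` of rank at least three which is non-splitting,
      -- but splits after the deletion of any element, is representable over some field ...
        (∀ S T : Finset α, S ⊆ T → (S.Nonempty ∨ T ≠ Finset.univ) → r S + 3 ≤ r T →
          (∀ X, S ⊆ X → X ⊆ T → r X = r T ∨ r (S ∪ (T \ X)) = r T) →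
          (∀ e ∈ T \ S, r (T.erase e) = r T → ∃ X, S ⊆ X ∧ X ⊆ T.erase e ∧
            r X ≠ r T ∧ r (S ∪ (T.erase e \ X)) ≠ r T) →
          ∃ (K : Type) (_ : Field K) (V : Type) (_ : AddCommGroup V) (_ : Module K V) (v : α → V),
            ∀ X, X ⊆ T \ S →
              r (S ∪ X) = r S + Module.finrank K (Submodule.span K (v '' (X : Set α)))) ∨
      -- (c) ... or the value at `2` of the characteristic polynomial of `M / F` has sign
      -- `(-1) ^ (rank (M / F) + 1)` for every nonempty flat `F` of corank at least `2` with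
      -- more than `rank M` points outside `F`
        (∀ F : Finset α, F.Nonempty → (∀ e, e ∉ F → r F < r (insert e F)) →
          r F + 2 ≤ r Finset.univ → r Finset.univ < Fᶜ.card →
          0 ≤ (-1 : ℤ) ^ (r Finset.univ + r F + 1) *
            ∑ Y ∈ Finset.Icc F Finset.univ,
              (-1 : ℤ) ^ (Y.card + F.card) * 2 ^ (r Finset.univ - r Y))) →
      ∃ e : α ≃ {s : Sym2 (Fin (n + 1)) // ¬ s.IsDiag},
        ∀ I : Set α, M.Indep I ↔
          (SimpleGraph.fromEdgeSet (Subtype.val '' (e '' I))).IsAcyclic := by
  intro α _ _ M n r hE hp hr hround hchi hcase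
  have hrr : IsRank M r := hr
  rcases hcase with ⟨K, _, V, _, _, v, hv⟩ | hcase | hcase
  · refine isKn_of_MUI_min n hE hp hrr hround hchi ?_
    intro S T hST _ hlt hR _
    exact MUI_of_rep hST hlt hR (repI_of_rep v (rank_eq_finrank_rep hrr v hv) S T)
  · refine isKn_of_MUI_min n hE hp hrr hround hchi ?_
    intro S T hST hprop hlt hR hmin
    by_cases h3 : r S + 3 ≤ r T
    · refine MUI_of_rep hST hlt hR (hcase S T hST hprop h3 hR ?_)
      intro e he hrk
      have h4 := hmin e he
      by_contra hcon
      apply h4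
      refine ⟨hrk, ?_⟩
      intro X hX1 hX2
      rw [hrk]
      by_contra h5
      push Not at h5
      exact hcon ⟨X, hX1, hX2, h5.1, h5.2⟩
    · rcases (show r T = r S + 1 ∨ r T = r S + 2 by omega) with h4 | h4
      · exact MUI_rank_one hrr.rankFn hST h4
      · exact MUI_rank_two hrr.rankFn hST h4 hR hmin
  · refine isKn_of_TCond n hE hp hrr hround hchi ?_
    intro F h1 h2 h3 h4
    exact hcase F h1 h2 h3 h4

end Pool.Agent.Results.MP_dc96bc_co.Representable
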